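import Pool.Agent.Helper6.LP.St

/-!
# Project LP (MP_5e9b96_nt), module TGO: at least half of the `j` are good
-/

set_option autoImplicit false

noncomputable section

namespace Pool.Agent.Helper24.LP

open Finset
open Pool.Agent.Helper15.AB (StMT)
open Pool.Agent.Helper60.LZ (js bp bl StBAD)
open Pool.Agent.Helper98.LM (QQ)
open Pool.Agent.Helper6.LP

private def MM (y : ℕ) : ℝ := ∑ l ∈ (Icc 1 y).filter Nat.Prime, (1 : ℝ) / l

private theorem qqM {L w : ℕ} (h : L ≤ w) : ∑ l ∈ QQ L w, (1 : ℝ) / l = MM w - MM L := by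
  have h1 : (Icc 1 w).filter Nat.Prime = (Icc 1 L).filter Nat.Prime ∪ QQ L w := by
    ext l
    unfold QQ
    simp only [mem_union, mem_filter, mem_Icc, mem_Ioc]
    constructor
    · rintro ⟨⟨h1, h2⟩, h3⟩
      by_cases h4 : l ≤ L
      · exact Or.inl ⟨⟨h1, h4⟩, h3⟩
      · exact Or.inr ⟨⟨by omega, h2⟩, h3⟩
    · rintro (⟨⟨h1, h2⟩, h3⟩ | ⟨⟨h1, h2⟩, h3⟩)
      · exact ⟨⟨h1, by omega⟩, h3⟩
      · exact ⟨⟨by omega, h2⟩, h3⟩
  have hd : Disjoint ((Icc 1 L).filter Nat.Prime) (QQ L w) := by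
    rw [Finset.disjoint_left]
    intro l h1 h2
    unfold QQ at h2
    simp only [mem_filter, mem_Icc, mem_Ioc] at h1 h2
    omega
  unfold MM
  rw [h1, sum_union hd]
  ring

private theorem split1 (f : ℕ → ℝ) {a b c : ℕ} (h1 : a ≤ b) (h2 : b ≤ c) :
    ∑ l ∈ QQ a c, f l = ∑ l ∈ QQ a b, f l + ∑ l ∈ QQ b c, f l := by
  have h : QQ a c = QQ a b ∪ QQ b c := by
    ext l
    unfold QQ
    simp only [mem_union, mem_filter, mem_Ioc]
    constructor
    · rintro ⟨⟨h1, h2⟩, h3⟩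
      by_cases h4 : l ≤ b
      · exact Or.inl ⟨⟨h1, h4⟩, h3⟩
      · exact Or.inr ⟨⟨by omega, h2⟩, h3⟩
    · rintro (⟨⟨h1, h2⟩, h3⟩ | ⟨⟨h1, h2⟩, h3⟩)
      · exact ⟨⟨h1, by omega⟩, h3⟩
      · exact ⟨⟨by omega, h2⟩, h3⟩
  have hd : Disjoint (QQ a b) (QQ b c) := by
    rw [Finset.disjoint_left]
    intro l h1 h2
    unfold QQ at h1 h2
    simp only [mem_filter, mem_Ioc] at h1 h2
    omega
  rw [h, sum_union hd]

private theorem split2 (f : ℕ → ℝ) {b j0 : ℕ} (h0 : b < 2 ^ j0) : ∀ I : ℕ, j0 ≤ I →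
    ∑ l ∈ QQ b (2 ^ I - 1), f l =
      ∑ l ∈ QQ b (2 ^ j0 - 1), f l + ∑ j ∈ Ico j0 I, ∑ l ∈ bp j, f l := by
  intro I hI
  induction I, hI using Nat.le_induction with
  | base => simp
  | succ J hJ ih =>
    have hp : 2 ^ j0 ≤ 2 ^ J := Nat.pow_le_pow_right (by norm_num) hJ
    have hs : 2 ^ (J + 1) = 2 * 2 ^ J := by rw [pow_succ]; ring
    have h : QQ b (2 ^ (J + 1) - 1) = QQ b (2 ^ J - 1) ∪ bp J := by
      ext l
      unfold QQ bp
      simp only [mem_union, mem_filter, mem_Ioc, mem_Ico]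
      rw [hs]
      constructor
      · rintro ⟨⟨h1, h2⟩, h3⟩
        by_cases h5 : l < 2 ^ J
        · exact Or.inl ⟨⟨h1, by omega⟩, h3⟩
        · exact Or.inr ⟨⟨by omega, by omega⟩, h3⟩
      · rintro (⟨⟨h1, h2⟩, h3⟩ | ⟨⟨h1, h2⟩, h3⟩)
        · exact ⟨⟨h1, by omega⟩, h3⟩
        · exact ⟨⟨by omega, by omega⟩, h3⟩
    have hd : Disjoint (QQ b (2 ^ J - 1)) (bp J) := by
      rw [Finset.disjoint_left]
      intro l h1 h2
      unfold QQ at h1
      unfold bp at h2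
      simp only [mem_filter, mem_Ioc, mem_Ico] at h1 h2
      omega
    rw [h, sum_union hd, ih, Finset.sum_Ico_succ_top hJ]
    ring

private theorem js_le (t l : ℕ) : |js t l| ≤ 1 := by
  unfold js
  rcases jacobiSym.trichotomy ((t : ℤ) ^ 2 - 4) l with h | h | h <;> rw [h] <;> norm_num

private theorem js_div (t l : ℕ) : |js t l / l| ≤ 1 / l := by
  have h1 := js_le t l
  have h2 : (0 : ℝ) ≤ l := Nat.cast_nonneg l
  rw [abs_div, abs_of_nonneg h2]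
  exact div_le_div_of_nonneg_right h1 h2

private theorem csb {p L j0 I y : ℕ} (h1 : p ≤ L) (h2 : L < 2 ^ j0) (h3 : j0 ≤ I) :
    |cs p (2 ^ I - 1) y| ≤ |cs p L y| + (MM (2 ^ j0 - 1) - MM L)
      + ∑ j ∈ Ico j0 I, |bl (y - 2) j| := by
  have hp : 2 ^ j0 ≤ 2 ^ I := Nat.pow_le_pow_right (by norm_num) h3
  have e : cs p (2 ^ I - 1) y = cs p L y + ((∑ l ∈ QQ L (2 ^ j0 - 1), js (y - 2) l / l)
      + ∑ j ∈ Ico j0 I, bl (y - 2) j) := by
    unfold cs
    rw [split1 _ h1 (by omega : L ≤ 2 ^ I - 1), split2 _ h2 I h3]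
    rfl
  rw [e]
  have a1 := abs_add_le (cs p L y) ((∑ l ∈ QQ L (2 ^ j0 - 1), js (y - 2) l / l)
      + ∑ j ∈ Ico j0 I, bl (y - 2) j)
  have a2 := abs_add_le (∑ l ∈ QQ L (2 ^ j0 - 1), js (y - 2) l / l) (∑ j ∈ Ico j0 I, bl (y - 2) j)
  have a3 : |∑ l ∈ QQ L (2 ^ j0 - 1), js (y - 2) l / l| ≤ MM (2 ^ j0 - 1) - MM L := by
    rw [← qqM (by omega : L ≤ 2 ^ j0 - 1)]
    refine (abs_sum_le_sum_abs _ _).trans (sum_le_sum fun l _ => js_div _ _)
  have a4 : |∑ j ∈ Ico j0 I, bl (y - 2) j| ≤ ∑ j ∈ Ico j0 I, |bl (y - 2) j| :=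
    abs_sum_le_sum_abs _ _
  linarith

private theorem cube_root (J : ℕ) : ∃ L : ℕ, L ^ 3 ≤ J ∧ J < (L + 1) ^ 3 := by
  classical
  have h : ∃ k : ℕ, J < (k + 1) ^ 3 := ⟨J, by nlinarith [sq_nonneg (J : ℤ), Nat.zero_le (J ^ 3)]⟩
  refine ⟨Nat.find h, ?_, Nat.find_spec h⟩
  by_cases h0 : Nat.find h = 0
  · rw [h0]; simp
  · obtain ⟨m, hm⟩ := Nat.exists_eq_succ_of_ne_zero h0
    have h1 := Nat.find_min h (m := m) (by omega)
    rw [hm]
    simpa using h1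

/-- large `I` -/
private theorem largeI (P : ℕ) (hP : 1 ≤ P) (C c₁ : ℝ) (hC : 0 < C) (hc : 0 < c₁) (Z : ℝ) :
    ∃ I₀ : ℕ, ∀ I : ℕ, I₀ ≤ I → 3 ≤ I ∧ 512 * (P * (I ^ 3 + 1)) ^ 4 ≤ 2 ^ I ∧
      Z ≤ c₁ * (I : ℝ) ^ 2 ∧
      8 * (C * (I * Real.log I * Real.log (2 * P * (I : ℝ) ^ 3))) ≤ c₁ * (I : ℝ) ^ 2 := by
  have hP' : (1 : ℝ) ≤ P := by exact_mod_cast hP
  have hlP : 0 < Real.log (2 * P) := Real.log_pos (by linarith)
  -- polynomial against exponential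
  have t1 : ∀ᶠ I : ℕ in Filter.atTop, 512 * (P * (I ^ 3 + 1)) ^ 4 ≤ 2 ^ I := by
    have h1 := tendsto_pow_const_div_const_pow_of_one_lt 12 (show (1 : ℝ) < 2 by norm_num)
    have h2 : (0 : ℝ) < 1 / (8192 * (P : ℝ) ^ 4) := by positivity
    filter_upwards [h1.eventually_lt_const h2, Filter.eventually_ge_atTop 1] with I hI hI1
    have hI' : (1 : ℝ) ≤ I := by exact_mod_cast hI1
    have h3 : (I : ℝ) ^ 12 * (8192 * (P : ℝ) ^ 4) ≤ 2 ^ I := by
      rw [div_lt_div_iff₀ (by positivity) (by positivity)] at hI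
      linarith
    have h4 : (512 * ((P : ℝ) * ((I : ℝ) ^ 3 + 1)) ^ 4) ≤ 2 ^ I := by
      refine le_trans ?_ h3
      have h5 : (I : ℝ) ^ 3 + 1 ≤ 2 * (I : ℝ) ^ 3 := by
        have : (1 : ℝ) ≤ (I : ℝ) ^ 3 := one_le_pow₀ hI'
        linarith
      calc (512 * ((P : ℝ) * ((I : ℝ) ^ 3 + 1)) ^ 4)
          ≤ 512 * ((P : ℝ) * (2 * (I : ℝ) ^ 3)) ^ 4 := by gcongr
        _ = (I : ℝ) ^ 12 * (8192 * (P : ℝ) ^ 4) := by ring
    exact_mod_cast h4
  have t2 : ∀ᶠ I : ℕ in Filter.atTop, Z ≤ c₁ * (I : ℝ) ^ 2 := by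
    have h1 : Filter.Tendsto (fun I : ℕ => c₁ * (I : ℝ) ^ 2) Filter.atTop Filter.atTop :=
      Filter.Tendsto.const_mul_atTop hc
        ((Filter.tendsto_pow_atTop (by norm_num)).comp tendsto_natCast_atTop_atTop)
    exact h1.eventually_ge_atTop Z
  have t3 : ∀ᶠ I : ℕ in Filter.atTop,
      8 * (C * (I * Real.log I * Real.log (2 * P * (I : ℝ) ^ 3))) ≤ c₁ * (I : ℝ) ^ 2 := by
    have h1 := (Real.isLittleO_pow_log_id_atTop (n := 2)).comp_tendsto tendsto_natCast_atTop_atTop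
    have hD : 0 < c₁ / (8 * C * (Real.log (2 * P) + 3)) := by positivity
    have h2 := h1.def hD
    filter_upwards [h2, Filter.eventually_ge_atTop 3] with I hI hI3
    have hI' : (3 : ℝ) ≤ I := by exact_mod_cast hI3
    simp only [Function.comp_apply, id, Real.norm_eq_abs] at hI
    have hl1 : 1 ≤ Real.log I := by
      have : Real.exp 1 ≤ I := by
        have := Real.exp_one_lt_d9
        linarith
      rw [Real.le_log_iff_exp_le (by linarith)]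
      exact this
    rw [abs_of_nonneg (by positivity), abs_of_nonneg (by linarith)] at hI
    have h3 : Real.log (2 * P * (I : ℝ) ^ 3) = Real.log (2 * P) + 3 * Real.log I := by
      rw [Real.log_mul (by positivity) (by positivity), Real.log_pow]
      norm_num
    rw [h3]
    have h4 : Real.log (2 * P) + 3 * Real.log I ≤ (Real.log (2 * P) + 3) * Real.log I := by
      nlinarith
    have h5 : 8 * C * (Real.log (2 * P) + 3) * Real.log I ^ 2 ≤ c₁ * I := by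
      rw [div_mul_eq_mul_div, le_div_iff₀ (by positivity)] at hI
      linarith
    calc 8 * (C * (I * Real.log I * (Real.log (2 * P) + 3 * Real.log I)))
        ≤ 8 * (C * (I * Real.log I * ((Real.log (2 * P) + 3) * Real.log I))) := by gcongr
      _ = I * (8 * C * (Real.log (2 * P) + 3) * Real.log I ^ 2) := by ring
      _ ≤ I * (c₁ * I) := by gcongr
      _ = c₁ * (I : ℝ) ^ 2 := by ring
  obtain ⟨I₀, h⟩ := Filter.eventually_atTop.1 ((Filter.eventually_ge_atTop 3).and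
    (t1.and (t2.and t3)))
  exact ⟨I₀, h⟩

/-- the middle primes -/
private theorem mid {C0 : ℝ} (hMM : ∀ y : ℕ, 3 ≤ y → |MM y - Real.log (Real.log y)| ≤ C0)
    {L j0 : ℕ} (hL : 32 ≤ L) (h1 : L < 2 ^ j0) (h2 : 2 ^ j0 ≤ L ^ 20) :
    MM (2 ^ j0 - 1) - MM L ≤ Real.log 20 + 2 * C0 := by
  have hLr : (32 : ℝ) ≤ L := by exact_mod_cast hL
  have hlL : 0 < Real.log L := Real.log_pos (by linarith)
  have e1 := (abs_le.1 (hMM (2 ^ j0 - 1) (by omega))).2
  have e2 := (abs_le.1 (hMM L (by omega))).1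
  have e3 : Real.log (Real.log ((2 ^ j0 - 1 : ℕ) : ℝ)) ≤ Real.log (20 * Real.log L) := by
    have e5 : (1 : ℝ) < ((2 ^ j0 - 1 : ℕ) : ℝ) := by exact_mod_cast (by omega : 1 < 2 ^ j0 - 1)
    apply Real.log_le_log (Real.log_pos e5)
    have e4 : ((2 ^ j0 - 1 : ℕ) : ℝ) ≤ (L : ℝ) ^ 20 := by
      exact_mod_cast (by omega : 2 ^ j0 - 1 ≤ L ^ 20)
    have e6 := Real.log_le_log (by linarith) e4
    rwa [Real.log_pow, Nat.cast_ofNat] at e6
  rw [Real.log_mul (by norm_num) hlL.ne'] at e3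
  linarith

theorem hTGO (hS : StSMA) (hB : StBAD) (hM : StMT) : StTGO := by
  classical
  obtain ⟨C0, hC0, hM⟩ := hM
  obtain ⟨C, hC, hB⟩ := hB
  have hMM : ∀ y : ℕ, 3 ≤ y → |MM y - Real.log (Real.log y)| ≤ C0 := by
    intro y hy
    have h := hM (y : ℝ) (by exact_mod_cast hy)
    rw [Nat.floor_natCast] at h
    exact h
  have hl20 : 0 < Real.log 20 := Real.log_pos (by norm_num)
  refine ⟨2 + (Real.log 20 + 2 * C0), by positivity, ?_⟩
  intro p P hp hP hPl c₁ hc₁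
  obtain ⟨I₀, hI₀⟩ := largeI P hP C c₁ hC hc₁ ((max p (8 * P) : ℕ) ^ 3 : ℕ)
  refine ⟨I₀, ?_⟩
  intro I J r hI hJ1 hJ2 hr1 hr2
  obtain ⟨hI3, g1, g2, g3⟩ := hI₀ I hI
  -- the cube root
  obtain ⟨L, hL1, hL2⟩ := cube_root J
  have hJL : (max p (8 * P)) ^ 3 ≤ J := by
    have : (((max p (8 * P)) ^ 3 : ℕ) : ℝ) ≤ J := g2.trans hJ1
    exact_mod_cast this
  have hLm : max p (8 * P) ≤ L := by
    by_contra hcon
    have h1 : L + 1 ≤ max p (8 * P) := by omega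
    have h2 := Nat.pow_le_pow_left h1 3
    omega
  have hpL : p ≤ L := (le_max_left _ _).trans hLm
  have hPL : 8 * P ≤ L := (le_max_right _ _).trans hLm
  have hL32 : 32 ≤ L := hp.trans hpL
  obtain ⟨K, hK⟩ : ∃ K : ℕ, K = P * (J + 1) := ⟨_, rfl⟩
  have hJ32 : 32 ^ 3 ≤ J := (Nat.pow_le_pow_left hL32 3).trans hL1
  have hLJ : L ≤ J := (Nat.le_self_pow (by norm_num) L).trans hL1
  have hKJ : J + 1 ≤ K := by rw [hK]; exact Nat.le_mul_of_pos_left _ hP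
  -- the level
  obtain ⟨j0, hj0⟩ : ∃ j0 : ℕ, j0 = Nat.clog 2 (256 * K ^ 4) := ⟨_, rfl⟩
  have hKpos : 1 ≤ K := by omega
  have h256 : 1 < 256 * K ^ 4 := by
    have : 1 ≤ K ^ 4 := Nat.one_le_pow _ _ hKpos
    omega
  have hj0a : 256 * K ^ 4 ≤ 2 ^ j0 := by rw [hj0]; exact Nat.le_pow_clog (by norm_num) _
  have hj0b : 2 ^ j0 ≤ 512 * K ^ 4 := by
    have h1 : 2 ^ (j0 - 1) < 256 * K ^ 4 := by
      rw [hj0]
      exact Nat.pow_pred_clog_lt_self (by norm_num) h256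
    have h2 : 1 ≤ j0 := by
      rw [hj0]
      exact Nat.clog_pos (by norm_num) (by omega)
    have h3 : 2 ^ j0 = 2 * 2 ^ (j0 - 1) := by
      rw [← pow_succ']
      congr 1
      omega
    omega
  have hj0c : 2 ^ j0 ≤ L ^ 20 := by
    have h1 : J + 1 ≤ (L + 1) ^ 3 := hL2
    have h2 : K ≤ P * (2 * L) ^ 3 := by
      rw [hK]
      exact Nat.mul_le_mul_left _ (h1.trans (Nat.pow_le_pow_left (by omega) 3))
    calc 2 ^ j0 ≤ 512 * K ^ 4 := hj0b
      _ ≤ 512 * (P * (2 * L) ^ 3) ^ 4 := by gcongr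
      _ = (2 ^ 21 * P ^ 4) * L ^ 12 := by ring
      _ ≤ (8 * P) ^ 8 * L ^ 12 := by
          apply Nat.mul_le_mul_right
          have : P ^ 4 ≤ P ^ 8 := Nat.pow_le_pow_right hP (by norm_num)
          calc 2 ^ 21 * P ^ 4 ≤ 2 ^ 24 * P ^ 8 := Nat.mul_le_mul (by norm_num) this
            _ = (8 * P) ^ 8 := by ring
      _ ≤ L ^ 8 * L ^ 12 := Nat.mul_le_mul_right _ (Nat.pow_le_pow_left hPL 8)
      _ = L ^ 20 := by ring
  have hj0d : L < 2 ^ j0 := by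
    have h1 : K ≤ K ^ 4 := Nat.le_self_pow (by norm_num) K
    omega
  have hKI : K ≤ P * (I ^ 3 + 1) := by
    rw [hK]
    exact Nat.mul_le_mul_left _ (by omega)
  have hj0e : j0 ≤ I := by
    have h1 : 2 ^ j0 ≤ 2 ^ I := by
      calc 2 ^ j0 ≤ 512 * K ^ 4 := hj0b
        _ ≤ 512 * (P * (I ^ 3 + 1)) ^ 4 := by gcongr
        _ ≤ 2 ^ I := g1
    exact (Nat.pow_le_pow_iff_right (by norm_num)).1 h1
  -- the bad sets
  have b1 := hS p P r J L hp hP hPl hr1 hL1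
  have b2 : (((Icc 1 J).filter (fun j : ℕ => 6 ≤ r + P * j ∧
      1 < ∑ i ∈ Ico j0 I, |bl (r + P * j - 2) i|)).card : ℝ) ≤ J / 8 := by
    have h1 := hB K j0 I (by omega) hj0a hj0e
    have h2 : ((Icc 1 J).filter (fun j : ℕ => 6 ≤ r + P * j ∧
        1 < ∑ i ∈ Ico j0 I, |bl (r + P * j - 2) i|)).card
        ≤ ((Icc 4 K).filter (fun t => 1 < ∑ j ∈ Ico j0 I, |bl t j|)).card := by
      refine Finset.card_le_card_of_injOn (fun j => r + P * j - 2) ?_ ?_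
      · intro j hj
        simp only [coe_filter, Set.mem_ofPred_eq, mem_Icc] at hj ⊢
        obtain ⟨⟨j1, j2⟩, j3, j4⟩ := hj
        refine ⟨⟨by omega, ?_⟩, j4⟩
        have : P * j ≤ P * J := Nat.mul_le_mul_left _ j2
        rw [hK, Nat.mul_add, Nat.mul_one]
        omega
      · intro a ha b hb hab
        simp only [coe_filter, Set.mem_ofPred_eq, mem_Icc] at ha hb hab
        have h3 : P * a = P * b := by omega
        exact Nat.eq_of_mul_eq_mul_left hP h3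
    have h3 : (((Icc 1 J).filter (fun j : ℕ => 6 ≤ r + P * j ∧
        1 < ∑ i ∈ Ico j0 I, |bl (r + P * j - 2) i|)).card : ℝ)
        ≤ C * (I * Real.log I * Real.log K) := le_trans (by exact_mod_cast h2) h1
    have hI' : (3 : ℝ) ≤ I := by exact_mod_cast hI3
    have hP' : (1 : ℝ) ≤ P := by exact_mod_cast hP
    have h4 : Real.log K ≤ Real.log (2 * P * (I : ℝ) ^ 3) := by
      apply Real.log_le_log (by exact_mod_cast hKpos)
      have h5 : (K : ℝ) ≤ P * ((I : ℝ) ^ 3 + 1) := by exact_mod_cast hKI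
      have h6 : (1 : ℝ) ≤ (I : ℝ) ^ 3 := one_le_pow₀ (by linarith)
      nlinarith
    have h7 : 0 ≤ Real.log I := Real.log_nonneg (by linarith)
    have h8 : C * (I * Real.log I * Real.log K)
        ≤ C * (I * Real.log I * Real.log (2 * P * (I : ℝ) ^ 3)) := by gcongr
    linarith
  have b3 : (((Icc 1 J).filter (fun j : ℕ => r + P * j < 6)).card : ℝ) ≤ J / 8 := by
    have h1 : (Icc 1 J).filter (fun j : ℕ => r + P * j < 6) ⊆ Icc 1 5 := by
      intro j hj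
      rw [mem_filter, mem_Icc] at hj
      rw [mem_Icc]
      have : j ≤ P * j := Nat.le_mul_of_pos_left _ hP
      omega
    have h2 := card_le_card h1
    have h3 : (Icc 1 5 : Finset ℕ).card = 5 := by simp
    have h4 : (((Icc 1 J).filter (fun j : ℕ => r + P * j < 6)).card : ℝ) ≤ 5 := by
      exact_mod_cast (by omega : ((Icc 1 J).filter (fun j : ℕ => r + P * j < 6)).card ≤ 5)
    have h5 : (40 : ℝ) ≤ J := by
      have : 40 ≤ J := le_trans (by norm_num) hJ32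
      exact_mod_cast this
    linarith
  -- the cover
  have hcov : Icc 1 J ⊆ TT (2 + (Real.log 20 + 2 * C0)) p (2 ^ I - 1) P r J ∪
      (((Icc 1 J).filter (fun j : ℕ => 1 < |cs p L (r + P * j)|)) ∪
      (((Icc 1 J).filter (fun j : ℕ => 6 ≤ r + P * j ∧
        1 < ∑ i ∈ Ico j0 I, |bl (r + P * j - 2) i|)) ∪
      ((Icc 1 J).filter (fun j : ℕ => r + P * j < 6)))) := by
    intro j hj
    unfold TT
    simp only [mem_union, mem_filter]
    by_cases c1 : 1 < |cs p L (r + P * j)|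
    · exact Or.inr (Or.inl ⟨hj, c1⟩)
    by_cases c3 : r + P * j < 6
    · exact Or.inr (Or.inr (Or.inr ⟨hj, c3⟩))
    by_cases c2 : 1 < ∑ i ∈ Ico j0 I, |bl (r + P * j - 2) i|
    · exact Or.inr (Or.inr (Or.inl ⟨hj, by omega, c2⟩))
    refine Or.inl ⟨hj, by omega, ?_⟩
    have h1 := csb (y := r + P * j) hpL hj0d hj0e
    have h2 := mid hMM hL32 hj0d hj0c
    linarith [not_lt.1 c1, not_lt.1 c2]
  have hcard := card_le_card hcov
  rw [Nat.card_Icc, Nat.add_sub_cancel] at hcard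
  have hc2 : (J : ℝ) ≤ ((TT (2 + (Real.log 20 + 2 * C0)) p (2 ^ I - 1) P r J).card : ℝ) +
      ((((Icc 1 J).filter (fun j : ℕ => 1 < |cs p L (r + P * j)|)).card : ℝ) +
      ((((Icc 1 J).filter (fun j : ℕ => 6 ≤ r + P * j ∧
        1 < ∑ i ∈ Ico j0 I, |bl (r + P * j - 2) i|)).card : ℝ) +
      (((Icc 1 J).filter (fun j : ℕ => r + P * j < 6)).card : ℝ))) := by
    have u1 := card_union_le (TT (2 + (Real.log 20 + 2 * C0)) p (2 ^ I - 1) P r J)
      (((Icc 1 J).filter (fun j : ℕ => 1 < |cs p L (r + P * j)|)) ∪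
      (((Icc 1 J).filter (fun j : ℕ => 6 ≤ r + P * j ∧
        1 < ∑ i ∈ Ico j0 I, |bl (r + P * j - 2) i|)) ∪
      ((Icc 1 J).filter (fun j : ℕ => r + P * j < 6))))
    have u2 := card_union_le ((Icc 1 J).filter (fun j : ℕ => 1 < |cs p L (r + P * j)|))
      (((Icc 1 J).filter (fun j : ℕ => 6 ≤ r + P * j ∧
        1 < ∑ i ∈ Ico j0 I, |bl (r + P * j - 2) i|)) ∪
      ((Icc 1 J).filter (fun j : ℕ => r + P * j < 6)))
    have u3 := card_union_le ((Icc 1 J).filter (fun j : ℕ => 6 ≤ r + P * j ∧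
        1 < ∑ i ∈ Ico j0 I, |bl (r + P * j - 2) i|))
      ((Icc 1 J).filter (fun j : ℕ => r + P * j < 6))
    exact_mod_cast (by omega)
  linarith

end Pool.Agent.Helper24.LP
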